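import Pool.Agent.H773.IE.SR

set_option autoImplicit false

/-! Project IE (MP_fb74c1_an): algebra of runs of Rauzy induction (written by helper94). -/

open MeasureTheory Set Filter Topology
open scoped ENNReal

namespace Pool.Agent.H94.IE

open Pool.Agent.H773.IE

variable {m : ℕ}

theorem sum_two {n : ℕ} {w l : Fin n} (hwl : w ≠ l) (f g : Fin n → ℝ)
    (h : ∀ i, i ≠ w → i ≠ l → f i = g i) (h2 : f w + f l = g w + g l) : ∑ i, f i = ∑ i, g i := by
  classical
  have e : ∀ f : Fin n → ℝ, ∑ i, f i = f w + (f l + ∑ i ∈ (Finset.univ.erase w).erase l, f i) := by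
    intro f
    rw [Finset.add_sum_erase _ f (Finset.mem_erase.2 ⟨hwl.symm, Finset.mem_univ _⟩),
      Finset.add_sum_erase _ f (Finset.mem_univ _)]
  rw [e f, e g]
  have e2 : ∑ i ∈ (Finset.univ.erase w).erase l, f i = ∑ i ∈ (Finset.univ.erase w).erase l, g i := by
    apply Finset.sum_congr rfl
    intro i hi
    rw [Finset.mem_erase, Finset.mem_erase] at hi
    exact h i hi.2.1 hi.1
  rw [e2]
  linarith

theorem step_dual {s : Sta m} {b : Bool} (h : win s b ≠ los s b) (q lam : Fin (m + 1) → ℝ) :
    ∑ i, nxtQ s b q i * nxtL s b lam i = ∑ i, q i * lam i := by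
  apply sum_two h
  · intro i hi1 hi2
    simp only [nxtQ, nxtL, Function.update_of_ne hi1, Function.update_of_ne hi2]
  · simp only [nxtQ, nxtL, Function.update_self, Function.update_of_ne h, Function.update_of_ne h.symm]
    ring

theorem step_len {s : Sta m} {b : Bool} (h : win s b ≠ los s b) (lam : Fin (m + 1) → ℝ) :
    ∑ i, nxtL s b lam i = ∑ i, lam i - lam (los s b) := by
  have h1 : ∑ i, (nxtL s b lam i + if i = los s b then lam (los s b) else 0) = ∑ i, lam i := by
    apply sum_two h
    · intro i hi1 hi2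
      rw [if_neg hi2, add_zero]
      simp only [nxtL, Function.update_of_ne hi1]
    · rw [if_neg h, if_pos rfl]
      simp only [nxtL, Function.update_self, Function.update_of_ne h.symm]
      ring
  rw [Finset.sum_add_distrib, Finset.sum_ite_eq' Finset.univ (los s b), if_pos (Finset.mem_univ _)] at h1
  linarith

theorem step_pos {s : Sta m} {b : Bool} {lam : Fin (m + 1) → ℝ} (hlam : ∀ i, 0 < lam i)
    (hc : lam (los s b) < lam (win s b)) : ∀ i, 0 < nxtL s b lam i := by
  intro i
  rw [nxtL, Function.update_apply]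
  split_ifs
  · linarith
  · exact hlam i

theorem step_two {s : Sta m} {b : Bool} (h : win s b ≠ los s b) {lam : Fin (m + 1) → ℝ}
    (hlam : ∀ i, 0 < lam i) (hc : lam (los s b) < lam (win s b)) :
    ∑ i, nxtL s b lam i ≤ ∑ i, lam i ∧ ∑ i, lam i ≤ 2 * ∑ i, nxtL s b lam i := by
  classical
  rw [step_len h]
  have h0 := hlam (los s b)
  refine ⟨by linarith, ?_⟩
  have h1 : lam (win s b) + lam (los s b) ≤ ∑ i, lam i := by
    rw [← Finset.sum_pair h]
    exact Finset.sum_le_sum_of_subset_of_nonneg (Finset.subset_univ _) (fun i _ _ => (hlam i).le)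
  linarith

theorem step_q {s : Sta m} {b : Bool} {q : Fin (m + 1) → ℝ} {M : ℝ} (hq : ∀ i, 0 < q i)
    (hM : ∀ i, q i ≤ M) : (∀ i, q i ≤ nxtQ s b q i) ∧ ∀ i, nxtQ s b q i ≤ 2 * M := by
  constructor
  · intro i
    rw [nxtQ, Function.update_apply]
    split_ifs with h
    · rw [h]
      linarith [hq (win s b)]
    · exact le_rfl
  · intro i
    rw [nxtQ, Function.update_apply]
    split_ifs with h
    · linarith [hM (win s b), hM (los s b)]
    · linarith [hM i, hq i]

theorem step_w {s : Sta m} (h : et s ≠ eb s) (b : Bool) {w : Fin (m + 1) → List (Fin (m + 1))}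
    (hw : Nielsen w) : Nielsen (nxtW s b w) := by
  cases b
  · exact Nielsen.left w (et s) (eb s) h hw
  · exact Nielsen.right w (et s) (eb s) h hw

theorem step_length (s : Sta m) (b : Bool) (w : Fin (m + 1) → List (Fin (m + 1))) :
    (fun j => ((nxtW s b w j).length : ℝ)) = nxtQ s b (fun j => ((w j).length : ℝ)) := by
  funext j
  rw [nxtW, nxtQ, Function.update_apply, Function.update_apply]
  split_ifs with h
  · cases b
    · simp [los, win, add_comm]
    · simp [los, win]
  · rfl

theorem t_alg (hirr : S_irr) : S_alg := by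
  intro m hm s hs p
  induction p generalizing s with
  | nil =>
    refine ⟨fun q lam => rfl, fun lam hlam _ => ⟨hlam, le_rfl, ?_⟩, fun q M _ hM => ⟨fun i => le_rfl, ?_⟩,
      fun w hw => hw, fun w i => rfl⟩
    · simp [runL]
    · intro i
      simpa [runQ] using hM i
  | cons b p ih =>
    have hwl := win_ne_los hm hs b
    obtain ⟨i1, i2, i3, i4, i5⟩ := ih (nxt s b) (hirr m hm s hs b)
    refine ⟨?_, ?_, ?_, ?_, ?_⟩
    · intro q lam
      have h1 := i1 (nxtQ s b q) (nxtL s b lam)
      rw [step_dual hwl] at h1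
      exact h1
    · rintro lam hlam ⟨c1, c2⟩
      obtain ⟨j1, j2, j3⟩ := i2 (nxtL s b lam) (step_pos hlam c1) c2
      obtain ⟨k1, k2⟩ := step_two hwl hlam c1
      refine ⟨j1, j2.trans k1, ?_⟩
      change ∑ i, lam i ≤ 2 ^ (p.length + 1) * ∑ i, runL p (nxt s b) (nxtL s b lam) i
      rw [pow_succ]
      linarith
    · intro q M hq hM
      obtain ⟨k1, k2⟩ := step_q (s := s) (b := b) hq hM
      obtain ⟨j1, j2⟩ := i3 (nxtQ s b q) (2 * M) (nxtQ_pos hq b) k2
      refine ⟨fun i => (k1 i).trans (j1 i), fun i => ?_⟩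
      change runQ p (nxt s b) (nxtQ s b q) i ≤ 2 ^ (p.length + 1) * M
      have := j2 i
      rw [pow_succ]
      linarith
    · intro w hw
      exact i4 _ (step_w (et_ne_eb hm hs) b hw)
    · intro w i
      have h1 := i5 (nxtW s b w) i
      rw [step_length] at h1
      exact h1

end Pool.Agent.H94.IE
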