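import Pool.Agent.H773.IE.SH

/-!
# IE-CON: contraction, topology of `SL(d,ℝ)`, invariant vectors
-/

set_option autoImplicit false

open MeasureTheory Set Filter Topology
open scoped ENNReal

namespace Pool.Agent.H784.IE

open Pool.Agent.H773.IE

section

variable {G H : Type} [Group G] [TopologicalSpace G] [NormedAddCommGroup H] [InnerProductSpace ℝ H]
  {U : G →* (H →L[ℝ] H)}

theorem inner_map (hU : Rep U) (g : G) (x y : H) : inner ℝ (U g x) (U g y) = inner ℝ x y := by
  let L : H →ₗᵢ[ℝ] H := ⟨(U g).toLinearMap, hU.iso g⟩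
  exact L.inner_map_map x y

omit [TopologicalSpace G] in
theorem mul_apply' (g h : G) (x : H) : U (g * h) x = U g (U h x) := by
  rw [map_mul]
  rfl

omit [TopologicalSpace G] in
theorem one_apply' (x : H) : U 1 x = x := by
  rw [map_one]
  rfl

theorem inner_adj (hU : Rep U) (g : G) (x w : H) : inner ℝ (U g x) w = inner ℝ x (U g⁻¹ w) := by
  rw [← inner_map hU g x, ← mul_apply', mul_inv_cancel, one_apply']

end

theorem t_contr : S_contr := by
  intro G H _ _ _ _ _ _ U hU ι 𝒰 a v v₀ hv u hu
  refine ext_inner_right ℝ fun w => ?_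
  -- the first limit
  have h1 : Tendsto (fun i => inner ℝ (U u (U (a i) v)) w) 𝒰 (𝓝 (inner ℝ (U u v₀) w)) := by
    have := hv (U u⁻¹ w)
    rw [← inner_adj hU] at this
    refine this.congr fun i => ?_
    rw [inner_adj hU u]
  -- the second limit
  have h2 : Tendsto (fun i => U ((a i)⁻¹ * u * a i) v - v) 𝒰 (𝓝 0) := by
    have h3 := ((hU.cont v).tendsto 1).comp hu
    rw [one_apply'] at h3
    have h4 := h3.sub_const v
    rw [sub_self] at h4
    exact h4
  have h5 : Tendsto (fun i => inner ℝ (U (a i) (U ((a i)⁻¹ * u * a i) v - v)) w) 𝒰 (𝓝 0) := by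
    refine squeeze_zero_norm (fun i => ?_) (show Tendsto (fun i => ‖U ((a i)⁻¹ * u * a i) v - v‖ * ‖w‖) 𝒰 (𝓝 0) from ?_)
    · refine (norm_inner_le_norm _ _).trans ?_
      rw [hU.iso]
    · have := h2.norm.mul_const ‖w‖
      rw [norm_zero, zero_mul] at this
      exact this
  have h6 : Tendsto (fun i => inner ℝ (U u (U (a i) v)) w) 𝒰 (𝓝 (inner ℝ v₀ w)) := by
    have h7 := (hv w).add h5
    rw [add_zero] at h7
    refine h7.congr fun i => ?_
    rw [← inner_add_left, map_sub, ← mul_apply', ← mul_apply']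
    congr 1
    have : a i * ((a i)⁻¹ * u * a i) = u * a i := by group
    rw [this]
    abel
  exact tendsto_nhds_unique h1 h6

theorem t_top : S_top := by
  intro d
  have hc : IsClosed {A : Matrix (Fin d) (Fin d) ℝ | A.det = 1} :=
    isClosed_eq (Continuous.matrix_det continuous_id) continuous_const
  have he : IsClosedEmbedding (Subtype.val : SLR d → Matrix (Fin d) (Fin d) ℝ) := hc.isClosedEmbedding_subtypeVal
  have hl : LocallyCompactSpace (Matrix (Fin d) (Fin d) ℝ) :=
    inferInstanceAs (LocallyCompactSpace (Fin d → Fin d → ℝ))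
  have hsc : SecondCountableTopology (Matrix (Fin d) (Fin d) ℝ) :=
    inferInstanceAs (SecondCountableTopology (Fin d → Fin d → ℝ))
  have ht : T2Space (Matrix (Fin d) (Fin d) ℝ) := inferInstanceAs (T2Space (Fin d → Fin d → ℝ))
  exact ⟨he.locallyCompactSpace, he.isEmbedding.secondCountableTopology, he.isEmbedding.t2Space⟩

theorem t_N (_htop : S_top) (hncpt : S_ncpt) : S_N := by
  intro d hd n hn _ _ μ _ H _ _ _ U hU hmix
  filter_upwards [hncpt d hd n hn μ] with a ha v hv
  by_contra hv0
  apply ha
  let K : Subgroup (SLR d) :=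
    { carrier := {g | U g v = v}
      mul_mem' := fun {g h} hg hh => by
        show U (g * h) v = v
        rw [mul_apply', show U h v = v from hh]
        exact hg
      one_mem' := one_apply' v
      inv_mem' := fun {g} hg => by
        show U g⁻¹ v = v
        have h1 : U g v = v := hg
        conv_lhs => rw [← h1]
        rw [← mul_apply', inv_mul_cancel, one_apply'] }
  refine ⟨K, ?_, fun i => hv i⟩
  have hclosed : IsClosed (K : Set (SLR d)) := isClosed_eq (hU.cont v) continuous_const
  have hpos : 0 < ‖v‖ ^ 2 := by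
    have := norm_pos_iff.mpr hv0
    positivity
  have hev : ∀ᶠ g in cocompact (SLR d), inner ℝ (U g v) v < ‖v‖ ^ 2 := (hmix v v).eventually (gt_mem_nhds hpos)
  obtain ⟨T, hT, hsub⟩ := mem_cocompact.mp hev
  refine hT.of_isClosed_subset hclosed fun g hg => ?_
  by_contra hgT
  have h1 : inner ℝ (U g v) v < ‖v‖ ^ 2 := hsub hgT
  have h2 : U g v = v := hg
  rw [h2, real_inner_self_eq_norm_sq] at h1
  exact lt_irrefl _ h1

end Pool.Agent.H784.IE
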