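import Pool.Agent.H773.IE.SR
import Pool.Agent.H773.IE.SM

set_option autoImplicit false

/-! Project IE (MP_fb74c1_an): from equivariant functions to invariant sets (written by helper94). -/

open MeasureTheory Set Filter Topology
open scoped ENNReal

namespace Pool.Agent.H94.IE

open Pool.Agent.H773.IE

theorem stepFn_eq {n : ℕ} {G : Type} [Group G] {lam : Fin n → ℝ} (g : Fin n → G)
    (hdisj : ∀ i j, i ≠ j → Disjoint (piece lam i) (piece lam j)) {j : Fin n} {x : ℝ}
    (hx : x ∈ piece lam j) : stepFn lam g x = g j := by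
  have h : ∃ j, x ∈ piece lam j := ⟨j, hx⟩
  unfold stepFn
  rw [dif_pos h]
  congr 1
  by_contra hne
  exact Set.disjoint_left.1 (hdisj _ _ hne) h.choose_spec hx

theorem stepFn_one {n : ℕ} {G : Type} [Group G] {lam : Fin n → ℝ} (g : Fin n → G) {x : ℝ}
    (hx : x ∉ ⋃ j, piece lam j) : stepFn lam g x = 1 := by
  unfold stepFn
  exact dif_neg fun h => hx (mem_iUnion.2 h)

theorem stepFn_meas {n : ℕ} {G : Type} [Group G] [MeasurableSpace G] {lam : Fin n → ℝ} (g : Fin n → G)
    (hdisj : ∀ i j, i ≠ j → Disjoint (piece lam i) (piece lam j))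
    (hm : ∀ j, MeasurableSet (piece lam j)) : Measurable (stepFn lam g) := by
  intro A _
  have h : stepFn lam g ⁻¹' A = (⋃ j, (stepFn lam g ⁻¹' A) ∩ piece lam j) ∪
      ((stepFn lam g ⁻¹' A) ∩ (⋃ j, piece lam j)ᶜ) := by
    rw [← inter_iUnion, ← inter_union_distrib_left, union_compl_self, inter_univ]
  rw [h]
  refine (MeasurableSet.iUnion fun j => ?_).union ?_
  · by_cases hj : g j ∈ A
    · have e : (stepFn lam g ⁻¹' A) ∩ piece lam j = piece lam j := by
        refine inter_eq_right.2 (fun x hx => ?_)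
        rw [mem_preimage, stepFn_eq g hdisj hx]
        exact hj
      rw [e]
      exact hm j
    · have e : (stepFn lam g ⁻¹' A) ∩ piece lam j = ∅ := by
        refine eq_empty_of_forall_notMem (fun x hx => hj ?_)
        have h1 := hx.1
        rw [mem_preimage, stepFn_eq g hdisj hx.2] at h1
        exact h1
      rw [e]
      exact MeasurableSet.empty
  · by_cases h1 : (1 : G) ∈ A
    · have e : (stepFn lam g ⁻¹' A) ∩ (⋃ j, piece lam j)ᶜ = (⋃ j, piece lam j)ᶜ := by
        refine inter_eq_right.2 (fun x hx => ?_)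
        rw [mem_preimage, stepFn_one g hx]
        exact h1
      rw [e]
      exact (MeasurableSet.iUnion fun j => hm j).compl
    · have e : (stepFn lam g ⁻¹' A) ∩ (⋃ j, piece lam j)ᶜ = ∅ := by
        refine eq_empty_of_forall_notMem (fun x hx => h1 ?_)
        have h2 := hx.1
        rw [mem_preimage, stepFn_one g hx.2] at h2
        exact h2
      rw [e]
      exact MeasurableSet.empty

theorem t_fin (hsys : Pool.Agent.H773.IE.S_sys) (hslice : S_slice) : S_fin := by
  intro G X _ _ _ _ _ _ _ _ _ _ _ _ m _ _ U hU n lam σ hlam hsum herg g hF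
  have hS := hsys n lam σ hlam hsum
  obtain ⟨hm, hcov, hdisj, -, hmp⟩ := hS
  have hfin : IsFiniteMeasure leb := by
    unfold leb
    infer_instance
  have hstep := stepFn_meas g hdisj hm
  have hsk : Measurable (skew (X := X) lam σ g) := by
    unfold skew
    exact (hmp.measurable.comp measurable_fst).prodMk
      ((hstep.comp measurable_fst).smul measurable_snd)
  have hpres : MeasurePreserving (skew (X := X) lam σ g) (leb.prod m) (leb.prod m) := by
    have h1 := MeasurePreserving.skew_product (μa := leb) (μb := leb) (μc := m) (μd := m) hmp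
      (g := fun x y => stepFn lam g x • y)
      ((hstep.comp measurable_fst).smul measurable_snd)
      (Eventually.of_forall fun x => (measurePreserving_smul (stepFn lam g x) m).map_eq)
    exact h1
  refine ⟨hpres, ⟨?_⟩⟩
  intro s hs hinv
  obtain ⟨F, hFm, hFs⟩ := hslice X m s hs
  -- invariance on the slices
  have hsl : ∀ j, ∀ x ∈ piece lam j, ∀ y : X, (x, y) ∈ s ↔ (iet lam σ x, g j • y) ∈ s := by
    intro j x hx y
    have h1 : (x, y) ∈ skew lam σ g ⁻¹' s ↔ (x, y) ∈ s := by rw [hinv]
    rw [← h1, mem_preimage]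
    unfold skew
    rw [stepFn_eq g hdisj hx]
  have hsm : ∀ x, MeasurableSet {y : X | (x, y) ∈ s} := fun x => measurable_prodMk_left hs
  have hmeas : ∀ j, ∀ x ∈ piece lam j, m {y | (iet lam σ x, y) ∈ s} = m {y | (x, y) ∈ s} := by
    intro j x hx
    have h1 := (measurePreserving_smul (g j) m).measure_preimage (hsm (iet lam σ x)).nullMeasurableSet
    rw [← h1]
    congr 1
    ext y
    exact (hsl j x hx y).symm
  -- equivariance
  have heq : ∀ j, ∀ᵐ x ∂leb, x ∈ piece lam j → F (iet lam σ x) = U (g j) (F x) := by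
    intro j
    refine Eventually.of_forall fun x hx => ?_
    apply Subtype.ext
    apply Lp.ext
    have e1 := hFs (iet lam σ x)
    have e2 := hU (g j) (F x)
    have e3 := (measurePreserving_smul ((g j)⁻¹) m).quasiMeasurePreserving.ae (hFs x)
    filter_upwards [e1, e2, e3] with y h1 h2 h3
    rw [h1, h2, h3]
    have h4 : s.indicator (fun _ => (1 : ℝ)) (iet lam σ x, y) =
        s.indicator (fun _ => (1 : ℝ)) (x, (g j)⁻¹ • y) := by
      have h5 := hsl j x hx ((g j)⁻¹ • y)
      rw [smul_inv_smul] at h5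
      by_cases h6 : (iet lam σ x, y) ∈ s
      · rw [indicator_of_mem h6, indicator_of_mem (h5.2 h6)]
      · rw [indicator_of_notMem h6, indicator_of_notMem (fun h => h6 (h5.1 h))]
    have h7 : m.real {y | (iet lam σ x, y) ∈ s} = m.real {y | (x, y) ∈ s} := by
      unfold Measure.real
      rw [hmeas j x hx]
    rw [h4, h7]
  have hzero := hF F hFm heq
  -- the measures of the slices are `0` or `1`
  have h01 : ∀ᵐ x ∂leb, m {y | (x, y) ∈ s} = 0 ∨ m {y | (x, y) ∈ s} = 1 := by
    filter_upwards [hzero] with x hx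
    have h1 := hFs x
    rw [hx] at h1
    have h2 : ∀ᵐ y ∂m, (((0 : L0 m) : Lp ℝ 2 m) : X → ℝ) y = 0 := Lp.coeFn_zero ℝ 2 m
    obtain ⟨y, hy1, hy2⟩ := (h1.and h2).exists
    rw [hy2] at hy1
    by_cases hy : (x, y) ∈ s
    · rw [indicator_of_mem hy] at hy1
      right
      have h3 : m.real {y | (x, y) ∈ s} = 1 := by linarith
      unfold Measure.real at h3
      rw [← ENNReal.ofReal_toReal (measure_ne_top m {y | (x, y) ∈ s}), h3, ENNReal.ofReal_one]
    · rw [indicator_of_notMem hy] at hy1
      left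
      have h3 : m.real {y | (x, y) ∈ s} = 0 := by linarith
      unfold Measure.real at h3
      rw [← ENNReal.ofReal_toReal (measure_ne_top m {y | (x, y) ∈ s}), h3, ENNReal.ofReal_zero]
  -- the measure of the slices is constant
  have hφ : Measurable fun x => m.real {y | (x, y) ∈ s} :=
    (measurable_measure_prodMk_left hs).ennreal_toReal
  have hinv2 : (fun x => m.real {y | (x, y) ∈ s}) ∘ iet lam σ =ᵐ[leb] fun x => m.real {y | (x, y) ∈ s} := by
    have h1 : ∀ᵐ x ∂leb, x ∈ Ico (0 : ℝ) 1 := ae_restrict_mem measurableSet_Ico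
    filter_upwards [h1] with x hx
    rw [hcov] at hx
    obtain ⟨j, hj⟩ := mem_iUnion.1 hx
    simp only [Function.comp, Measure.real]
    rw [hmeas j x hj]
  obtain ⟨c, hc⟩ := herg.ae_eq_const_of_ae_eq_comp_ae hφ.aestronglyMeasurable hinv2
  rw [Filter.eventuallyConst_set]
  by_cases hcase : ∀ᵐ x ∂leb, m {y | (x, y) ∈ s} = 0
  · right
    have h1 : (leb.prod m) s = 0 := by
      rw [Measure.measure_prod_null hs]
      exact hcase
    exact measure_eq_zero_iff_ae_notMem.1 h1
  · left
    have hc1 : ∀ᵐ x ∂leb, m {y | (x, y) ∈ s} = 1 := by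
      have hfreq : ∃ᵐ x ∂leb, ¬ m {y | (x, y) ∈ s} = 0 := by
        rwa [Filter.not_eventually] at hcase
      obtain ⟨x₀, hx₀, hx1, hx2⟩ := (hfreq.and_eventually (h01.and hc)).exists
      have h2 : m {y | (x₀, y) ∈ s} = 1 := hx1.resolve_left hx₀
      have h3 : c = 1 := by
        have h4 : m.real {y | (x₀, y) ∈ s} = c := hx2
        rw [← h4]
        unfold Measure.real
        rw [h2, ENNReal.toReal_one]
      filter_upwards [h01, hc] with x h4 h5
      rcases h4 with h4 | h4
      · exfalso
        have h6 : m.real {y | (x, y) ∈ s} = c := h5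
        unfold Measure.real at h6
        rw [h4, h3, ENNReal.toReal_zero] at h6
        exact zero_ne_one h6
      · exact h4
    have h1 : (leb.prod m) sᶜ = 0 := by
      rw [Measure.measure_prod_null hs.compl]
      filter_upwards [hc1] with x hx
      have h2 : Prod.mk x ⁻¹' sᶜ = {y | (x, y) ∈ s}ᶜ := rfl
      rw [h2, Pi.zero_apply, prob_compl_eq_zero_iff (hsm x)]
      exact hx
    exact (measure_eq_zero_iff_ae_notMem.1 h1).mono fun p hp => not_not.1 hp

end Pool.Agent.H94.IE
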