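import Pool.Agent.H773.IE.SH

/-! # IE (helper773), H3: Mautner phenomenon for `SL(2)` in `SL(d,ℝ)` -/

set_option autoImplicit false

open MeasureTheory Set Filter Topology
open scoped ENNReal

namespace Pool.Agent.H975.IE

open Pool.Agent.H773.IE
open Matrix.SpecialLinearGroup (transvection diag2n)

theorem prod_eq {d : ℕ} {i j : Fin d} (hij : i ≠ j) (a e : ℝ) (ha : a ≠ 0) (he : e ≠ 0) :
    transvection hij ((a - 1) / e) * transvection hij.symm e *
      transvection hij (-((a - 1) / (e * a))) = diag2n hij a ha * transvection hij.symm (a * e) := by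
  obtain ⟨x, hx⟩ : ∃ x, x = (a - 1) / e := ⟨_, rfl⟩
  obtain ⟨y, hy⟩ : ∃ y, y = -((a - 1) / (e * a)) := ⟨_, rfl⟩
  rw [← hx, ← hy]
  have h1 : x * e = a - 1 := by rw [hx]; field_simp
  have h2 : e * y = a⁻¹ - 1 := by rw [hy]; field_simp; ring
  have h3 : x + y + x * e * y = 0 := by rw [hx, hy]; field_simp; ring
  apply Subtype.ext
  rw [Matrix.SpecialLinearGroup.coe_mul, Matrix.SpecialLinearGroup.coe_mul,
    Matrix.SpecialLinearGroup.coe_mul, Matrix.SpecialLinearGroup.transvection_coe,
    Matrix.SpecialLinearGroup.transvection_coe, Matrix.SpecialLinearGroup.transvection_coe,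
    Matrix.SpecialLinearGroup.transvection_coe, Matrix.SpecialLinearGroup.diag2n_coe]
  have e1 : ((1 : Matrix (Fin d) (Fin d) ℝ) + Matrix.single i j x) *
      (1 + Matrix.single j i e) * (1 + Matrix.single i j y) =
      1 + Matrix.single i j (x + y + x * e * y) + Matrix.single j i e +
        Matrix.single i i (x * e) + Matrix.single j j (e * y) := by
    simp only [mul_add, add_mul, one_mul, mul_one, Matrix.single_mul_single_same,
      Matrix.single_mul_single_of_ne _ _ _ _ hij.symm, Matrix.single_add]
    abel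
  rw [e1, h3, h1, h2, mul_add, mul_one]
  have e2 : Matrix.diagonal (fun k => if k = i then a else if k = j then a⁻¹ else 1) *
      Matrix.single j i (a * e) = Matrix.single j i e := by
    ext k l
    rw [Matrix.diagonal_mul, Matrix.single_apply, Matrix.single_apply]
    by_cases hk : j = k ∧ i = l
    · rw [if_pos hk, if_pos hk, ← hk.1, if_neg hij.symm, if_pos rfl]
      field_simp
    · rw [if_neg hk, if_neg hk, mul_zero]
  have e3 : Matrix.diagonal (fun k => if k = i then a else if k = j then a⁻¹ else 1) =
      1 + Matrix.single i i (a - 1) + Matrix.single j j (a⁻¹ - 1) := by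
    ext k l
    simp only [Matrix.add_apply, Matrix.diagonal_apply, Matrix.single_apply, Matrix.one_apply]
    by_cases hkl : k = l
    · subst hkl
      by_cases hki : k = i
      · subst hki
        simp [hij, hij.symm]
      · by_cases hkj : k = j
        · subst hkj
          simp [hij, hij.symm, hki]
        · simp [hki, hkj, Ne.symm hki, Ne.symm hkj]
    · have h5 : ¬ (i = k ∧ i = l) := fun h => hkl (h.1.symm.trans h.2)
      have h6 : ¬ (j = k ∧ j = l) := fun h => hkl (h.1.symm.trans h.2)
      rw [if_neg hkl, if_neg hkl, if_neg h5, if_neg h6]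
      ring
  rw [e2, e3, Matrix.single_zero]
  abel

theorem cont_tr {d : ℕ} {i j : Fin d} (hij : i ≠ j) :
    Continuous fun e : ℝ => transvection hij e := by
  refine Continuous.subtype_mk ?_ _
  show Continuous fun e : ℝ => (1 : Matrix (Fin d) (Fin d) ℝ) + Matrix.single i j e
  refine continuous_const.add ?_
  refine continuous_matrix fun k l => ?_
  simp only [Matrix.single_apply]
  split_ifs
  · exact continuous_id
  · exact continuous_const

/-- **H3.** -/
theorem t_H3 : S_H3 := by
  intro d H _ _ _ U hU i j hij v hv a ha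
  obtain ⟨D, hD⟩ : ∃ D, D = diag2n hij a ha := ⟨_, rfl⟩
  rw [← hD]
  obtain ⟨m, hm⟩ : ∃ m : ℝ → SLR d, m = fun e => transvection hij.symm e := ⟨_, rfl⟩
  have hmc : Continuous m := by rw [hm]; exact cont_tr hij.symm
  have hm0 : m 0 = 1 := by
    rw [hm]
    exact Matrix.SpecialLinearGroup.transvection_coeff_zero hij.symm
  have key : ∀ e : ℝ, e ≠ 0 → ‖U D v - v‖ ≤ ‖U (m (a * e)) v - v‖ + ‖U (m e) v - v‖ := by
    intro e he
    have h1 := prod_eq hij a e ha he
    rw [← hD] at h1
    have h2 : U (transvection hij ((a - 1) / e)) (U (m e) v) = U D (U (m (a * e)) v) := by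
      have h3 := congrArg (fun g => U g v) h1
      simp only [map_mul] at h3
      rw [mul_apply_eq_comp, mul_apply_eq_comp,
        mul_apply_eq_comp, hv] at h3
      rw [hm]
      exact h3
    have h4 : ‖U D (U (m (a * e)) v) - v‖ = ‖U (m e) v - v‖ := by
      have h8 : U (transvection hij ((a - 1) / e)) (U (m e) v - v) =
          U D (U (m (a * e)) v) - v := by
        rw [map_sub, h2, hv]
      rw [← h8, hU.iso]
    calc ‖U D v - v‖ = ‖-(U D (U (m (a * e)) v - v)) + (U D (U (m (a * e)) v) - v)‖ := by
          rw [map_sub]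
          congr 1
          abel
      _ ≤ ‖-(U D (U (m (a * e)) v - v))‖ + ‖U D (U (m (a * e)) v) - v‖ := norm_add_le _ _
      _ = ‖U (m (a * e)) v - v‖ + ‖U (m e) v - v‖ := by rw [norm_neg, hU.iso, h4]
  have hlim : Tendsto (fun e : ℝ => ‖U (m (a * e)) v - v‖ + ‖U (m e) v - v‖) (𝓝[≠] 0) (𝓝 0) := by
    have hc : Continuous fun e : ℝ => ‖U (m (a * e)) v - v‖ + ‖U (m e) v - v‖ := by
      have h5 : Continuous fun e : ℝ => U (m e) v := (hU.cont v).comp hmc
      have h6 : Continuous fun e : ℝ => U (m (a * e)) v := h5.comp (continuous_const.mul continuous_id)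
      exact ((h6.sub continuous_const).norm).add ((h5.sub continuous_const).norm)
    have h7 := hc.tendsto 0
    simp only [mul_zero, hm0, map_one, one_apply_eq_self, sub_self, norm_zero,
      add_zero] at h7
    exact h7.mono_left nhdsWithin_le_nhds
  have hle : ‖U D v - v‖ ≤ 0 :=
    ge_of_tendsto hlim (eventually_nhdsWithin_of_forall fun e he => key e he)
  exact sub_eq_zero.1 (norm_le_zero_iff.1 hle)

end Pool.Agent.H975.IE
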