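import Pool.Agent.H773.IE.SR

/-!
# IE-IRR: a Rauzy move preserves irreducibility
-/

set_option autoImplicit false

namespace Pool.Agent.H784.IE

open Pool.Agent.H773.IE

theorem card_lt {m : ℕ} (σ : Equiv.Perm (Fin (m + 1))) (k : ℕ) :
    (Finset.univ.filter fun i => (σ i : ℕ) < k).card =
      (Finset.univ.filter fun j : Fin (m + 1) => (j : ℕ) < k).card :=
  Finset.card_equiv σ fun i => by simp

theorem t_irr : S_irr := by
  intro m hm s hs b k hk hkm
  have hne : et s ≠ eb s := et_ne_eb hm hs
  have htl : s.1 (et s) = Fin.last m := by rw [et, Equiv.apply_symm_apply]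
  have hbl : s.2 (eb s) = Fin.last m := by rw [eb, Equiv.apply_symm_apply]
  cases b
  · -- the last letter of the top row is moved
    have hr : s.1 (eb s) ≠ Fin.last m := fun h => hne (s.1.injective (htl.trans h.symm))
    show ∃ i, (ins s.1 (eb s) i : ℕ) < k ∧ k ≤ (s.2 i : ℕ)
    rcases Nat.lt_or_ge (s.1 (eb s) : ℕ) k with hP | hP
    · refine ⟨eb s, ?_, ?_⟩
      · rw [ins_val _ _ hr, if_pos le_rfl]
        exact hP
      · rw [hbl, Fin.val_last]
        exact hkm
    · obtain ⟨i, h1, h2⟩ := hs k hk hkm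
      refine ⟨i, ?_, h2⟩
      rw [ins_val _ _ hr, if_pos (by omega)]
      exact h1
  · have hr : s.2 (et s) ≠ Fin.last m := fun h => hne (s.2.injective (h.trans hbl.symm))
    show ∃ i, (s.1 i : ℕ) < k ∧ k ≤ (ins s.2 (et s) i : ℕ)
    rcases Nat.lt_or_ge (s.2 (et s) : ℕ) k with hP | hP
    · by_contra hno
      push Not at hno
      have hsub : (Finset.univ.filter fun i => (s.1 i : ℕ) < k) ⊆
          Finset.univ.filter fun i => (ins s.2 (et s) i : ℕ) < k := by
        intro i hi
        rw [Finset.mem_filter] at hi ⊢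
        exact ⟨hi.1, hno i hi.2⟩
      have heq := Finset.eq_of_subset_of_card_le hsub (by rw [card_lt, card_lt])
      have hmem : et s ∈ Finset.univ.filter fun i => (ins s.2 (et s) i : ℕ) < k := by
        rw [Finset.mem_filter, ins_val _ _ hr, if_pos le_rfl]
        exact ⟨Finset.mem_univ _, hP⟩
      rw [← heq, Finset.mem_filter, htl, Fin.val_last] at hmem
      exact absurd hmem.2 (by omega)
    · obtain ⟨i, h1, h2⟩ := hs k hk hkm
      refine ⟨i, h1, ?_⟩
      rw [ins_val _ _ hr]
      split_ifs with h3 h4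
      · exact h2
      · omega
      · omega

end Pool.Agent.H784.IE
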