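import Pool.Agent.H773.IE.SR

/-!
# Rauzy induction: without ties every letter wins at some time
-/

set_option autoImplicit false

open Filter Topology

namespace Pool.Agent.H803.IE

open Pool.Agent.H773.IE

variable {m : ℕ}

/-- the letters right of `z` -/
def rt (r : Equiv.Perm (Fin (m + 1))) (z : Fin (m + 1)) : Finset (Fin (m + 1)) :=
  Finset.univ.filter fun a => r z < r a

theorem ins_step (r : Equiv.Perm (Fin (m + 1))) (w z : Fin (m + 1)) (hw : r w ≠ Fin.last m)
    (hwz : w ≠ z) (hz : r z ≠ Fin.last m) :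
    rt (ins r w) z ⊆ rt r z ∧ (¬ r z < r w → (rt (ins r w) z).card < (rt r z).card) := by
  have hne : (r z : ℕ) ≠ (r w : ℕ) := fun h => hwz (r.injective (Fin.ext h)).symm
  have hzl : (r z : ℕ) < m := by
    have h1 : (r z : ℕ) ≠ m := fun h => hz (Fin.ext (by rw [Fin.val_last]; exact h))
    have := (r z).isLt
    omega
  have hsub : rt (ins r w) z ⊆ rt r z := by
    intro a ha
    have ha' : (ins r w z : ℕ) < (ins r w a : ℕ) := (Finset.mem_filter.1 ha).2
    refine Finset.mem_filter.2 ⟨Finset.mem_univ a, ?_⟩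
    rw [Fin.lt_def]
    rw [ins_val r w hw, ins_val r w hw] at ha'
    by_cases h1 : (r a : ℕ) ≤ (r w : ℕ)
    · rw [if_pos h1] at ha'
      split_ifs at ha' <;> omega
    · rw [if_neg h1] at ha'
      by_cases h2 : r a = Fin.last m
      · rw [h2, Fin.val_last]
        exact hzl
      · rw [if_neg h2] at ha'
        split_ifs at ha' <;> omega
  refine ⟨hsub, fun hlt => Finset.card_lt_card ?_⟩
  rw [Finset.ssubset_iff_of_subset hsub]
  have hlt' : (r w : ℕ) < (r z : ℕ) := by
    have : ¬ (r z : ℕ) < (r w : ℕ) := hlt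
    omega
  refine ⟨r.symm (Fin.last m), Finset.mem_filter.2 ⟨Finset.mem_univ _, ?_⟩, fun h => ?_⟩
  · rw [Equiv.apply_symm_apply, Fin.lt_def, Fin.val_last]
    exact hzl
  · have h' : (ins r w z : ℕ) < (ins r w (r.symm (Fin.last m)) : ℕ) := (Finset.mem_filter.1 h).2
    rw [ins_val r w hw, ins_val r w hw, Equiv.apply_symm_apply] at h'
    rw [if_neg (by omega), if_neg hz, if_neg (by rw [Fin.val_last]; omega), if_pos rfl] at h'
    omega

/-- the letters which win infinitely often end up right of the idle letters -/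
theorem row (r : ℕ → Equiv.Perm (Fin (m + 1))) (wn : ℕ → Fin (m + 1)) (z : Fin (m + 1)) (T₀ : ℕ)
    (h1 : ∀ t, T₀ ≤ t → (r (t + 1) = r t ∧ r t (wn t) = Fin.last m) ∨
      (r (t + 1) = ins (r t) (wn t) ∧ r t (wn t) ≠ Fin.last m))
    (h2 : ∀ t, T₀ ≤ t → wn t ≠ z) (h3 : ∀ t, T₀ ≤ t → r t z ≠ Fin.last m) (w : Fin (m + 1))
    (hw : ∃ᶠ t in atTop, wn t = w) : ∀ᶠ t in atTop, r t z < r t w := by
  have hstep : ∀ t, T₀ ≤ t → rt (r (t + 1)) z ⊆ rt (r t) z ∧
      (¬ r t z < r t (wn t) → (rt (r (t + 1)) z).card < (rt (r t) z).card) := by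
    intro t ht
    rcases h1 t ht with ⟨e1, e2⟩ | ⟨e1, e2⟩
    · rw [e1]
      refine ⟨Finset.Subset.refl _, fun h => absurd ?_ h⟩
      rw [e2]
      exact lt_of_le_of_ne (Fin.le_last _) (h3 t ht)
    · rw [e1]
      exact ins_step (r t) (wn t) z e2 (h2 t ht) (h3 t ht)
  have hmono : ∀ k, ∀ t, T₀ ≤ t → rt (r (t + k)) z ⊆ rt (r t) z := by
    intro k
    induction k with
    | zero => exact fun t _ => Finset.Subset.refl _
    | succ k ih =>
      intro t ht
      exact (hstep (t + k) (by omega)).1.trans (ih t ht)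
  -- a time with the least number of letters right of `z`
  obtain ⟨T₁, hT₁, hmin⟩ : ∃ T₁, T₀ ≤ T₁ ∧ ∀ t, T₀ ≤ t → (rt (r T₁) z).card ≤ (rt (r t) z).card := by
    classical
    have hex : ∃ c, ∃ t, T₀ ≤ t ∧ (rt (r t) z).card = c := ⟨_, T₀, le_rfl, rfl⟩
    obtain ⟨T₁, h4, h5⟩ := Nat.find_spec hex
    refine ⟨T₁, h4, fun t ht => ?_⟩
    rw [h5]
    exact Nat.find_min' hex ⟨t, ht, rfl⟩
  have hconst : ∀ t, T₁ ≤ t → rt (r t) z = rt (r T₁) z := by
    intro t ht
    have h4 := hmono (t - T₁) T₁ hT₁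
    have h5 : T₁ + (t - T₁) = t := by omega
    rw [h5] at h4
    exact Finset.eq_of_subset_of_card_le h4 (hmin t (by omega))
  have hwin : ∀ t, T₁ ≤ t → r t z < r t (wn t) := by
    intro t ht
    by_contra hcon
    have h4 := (hstep t (by omega)).2 hcon
    rw [hconst t ht, hconst (t + 1) (by omega)] at h4
    exact absurd h4 (lt_irrefl _)
  obtain ⟨t₂, ht₂, hwt⟩ := (frequently_atTop.1 hw) T₁
  have hmem : w ∈ rt (r T₁) z := by
    rw [← hconst t₂ ht₂, ← hwt]
    exact Finset.mem_filter.2 ⟨Finset.mem_univ _, hwin t₂ ht₂⟩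
  filter_upwards [eventually_ge_atTop T₁] with t ht
  rw [← hconst t ht] at hmem
  exact (Finset.mem_filter.1 hmem).2

theorem card_lt_pos (r : Equiv.Perm (Fin (m + 1))) (c : Fin (m + 1)) :
    (Finset.univ.filter fun a => r a < c).card = (c : ℕ) := by
  have e : (Finset.univ.filter fun a => r a < c) = (Finset.Iio c).map r.symm.toEmbedding := by
    ext a
    rw [Finset.mem_filter, Finset.mem_map]
    constructor
    · rintro ⟨_, h⟩
      exact ⟨r a, Finset.mem_Iio.2 h, r.symm_apply_apply a⟩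
    · rintro ⟨x, hx, rfl⟩
      refine ⟨Finset.mem_univ _, ?_⟩
      have : r (r.symm.toEmbedding x) = x := r.apply_symm_apply x
      rw [this]
      exact Finset.mem_Iio.1 hx
  rw [e, Finset.card_map, Fin.card_Iio]

/-- the outcome -/
noncomputable def outc (x : Sta m × (Fin (m + 1) → ℝ)) : Bool := by
  classical
  exact decide (x.2 (eb x.1) < x.2 (et x.1))

/-- the next state and lengths -/
noncomputable def stp (x : Sta m × (Fin (m + 1) → ℝ)) : Sta m × (Fin (m + 1) → ℝ) :=
  (nxt x.1 (outc x), nxtL x.1 (outc x) x.2)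

/-- the trajectory -/
noncomputable def traj (x : Sta m × (Fin (m + 1) → ℝ)) : ℕ → Sta m × (Fin (m + 1) → ℝ)
  | 0 => x
  | t + 1 => stp (traj x t)

/-- the outcomes -/
noncomputable def pth (x : Sta m × (Fin (m + 1) → ℝ)) : ℕ → List Bool
  | 0 => []
  | t + 1 => pth x t ++ [outc (traj x t)]

theorem outc_lt {x : Sta m × (Fin (m + 1) → ℝ)} (h : x.2 (et x.1) ≠ x.2 (eb x.1)) :
    x.2 (los x.1 (outc x)) < x.2 (win x.1 (outc x)) := by
  unfold outc
  by_cases h1 : x.2 (eb x.1) < x.2 (et x.1)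
  · rw [decide_eq_true h1]
    exact h1
  · rw [decide_eq_false h1]
    exact lt_of_le_of_ne (not_lt.1 h1) h

theorem pth_spec (s : Sta m) (lam : Fin (m + 1) → ℝ) (hn : NoTie s lam) (t : ℕ) :
    Cyl (pth (s, lam) t) s lam ∧ run (pth (s, lam) t) s = (traj (s, lam) t).1 ∧
      runL (pth (s, lam) t) s lam = (traj (s, lam) t).2 := by
  induction t with
  | zero => exact ⟨trivial, rfl, rfl⟩
  | succ t ih =>
    obtain ⟨h1, h2, h3⟩ := ih
    have h4 := hn _ h1
    rw [h2, h3] at h4
    refine ⟨?_, ?_, ?_⟩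
    · show Cyl (pth (s, lam) t ++ [outc (traj (s, lam) t)]) s lam
      rw [Cyl_append, h2, h3]
      exact ⟨h1, outc_lt h4, trivial⟩
    · show run (pth (s, lam) t ++ [outc (traj (s, lam) t)]) s = _
      rw [run_append, h2]
      rfl
    · show runL (pth (s, lam) t ++ [outc (traj (s, lam) t)]) s lam = _
      rw [runL_append, h2, h3]
      rfl

theorem sum_nxtL (s : Sta m) (b : Bool) (lam : Fin (m + 1) → ℝ) :
    ∑ i, nxtL s b lam i = ∑ i, lam i - lam (los s b) := by
  unfold nxtL
  rw [Finset.sum_update_of_mem (Finset.mem_univ _),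
    ← Finset.add_sum_erase Finset.univ lam (Finset.mem_univ (win s b)), Finset.sdiff_singleton_eq_erase]
  ring

theorem t_K (hirr : S_irr) : S_K := by
  intro m hm s lam hs hlam hn
  set x : ℕ → Sta m × (Fin (m + 1) → ℝ) := traj (s, lam) with hx
  have hx1 : ∀ t, x (t + 1) = stp (x t) := fun t => rfl
  have hirrt : ∀ t, IrrS (x t).1 := by
    intro t
    induction t with
    | zero => exact hs
    | succ t ih => exact hirr m hm _ ih _
  have hlt : ∀ t, (x t).2 (los (x t).1 (outc (x t))) < (x t).2 (win (x t).1 (outc (x t))) := by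
    intro t
    obtain ⟨h1, h2, h3⟩ := pth_spec s lam hn t
    have h4 := hn _ h1
    rw [h2, h3] at h4
    exact outc_lt h4
  have hpos : ∀ t, ∀ i, 0 < (x t).2 i := by
    intro t
    induction t with
    | zero => exact hlam
    | succ t ih =>
      intro i
      show 0 < nxtL (x t).1 (outc (x t)) (x t).2 i
      rw [nxtL, Function.update_apply]
      split_ifs
      · exact sub_pos.2 (hlt t)
      · exact ih i
  set wn : ℕ → Fin (m + 1) := fun t => win (x t).1 (outc (x t)) with hwn
  set ls : ℕ → Fin (m + 1) := fun t => los (x t).1 (outc (x t)) with hls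
  have hetb : ∀ t, et (x t).1 ≠ eb (x t).1 := fun t => et_ne_eb hm (hirrt t)
  -- the loser lengths tend to zero
  have hsum : ∀ T, ∑ t ∈ Finset.range T, (x t).2 (ls t) = ∑ i, (x 0).2 i - ∑ i, (x T).2 i := by
    intro T
    induction T with
    | zero => rw [Finset.sum_range_zero, sub_self]
    | succ T ih =>
      have h4 : ∑ i, (x (T + 1)).2 i = ∑ i, (x T).2 i - (x T).2 (ls T) := sum_nxtL _ _ _
      rw [Finset.sum_range_succ, ih, h4]
      ring
  have hsm : Summable fun t => (x t).2 (ls t) := by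
    apply summable_of_sum_range_le (c := ∑ i, (x 0).2 i) (fun t => (hpos t _).le)
    intro T
    rw [hsum T]
    have : 0 ≤ ∑ i, (x T).2 i := Finset.sum_nonneg fun i _ => (hpos T i).le
    linarith
  have hten : Tendsto (fun t => (x t).2 (ls t)) atTop (𝓝 0) := hsm.tendsto_atTop_zero
  -- a letter which wins finitely often loses finitely often
  have hlose : ∀ a, (∀ᶠ t in atTop, wn t ≠ a) → ∀ᶠ t in atTop, ls t ≠ a := by
    intro a ha
    obtain ⟨T, hT⟩ := eventually_atTop.1 ha
    have hc : ∀ k, (x (T + k)).2 a = (x T).2 a := by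
      intro k
      induction k with
      | zero => rfl
      | succ k ih =>
        have h4 : (x (T + k + 1)).2 a = (x (T + k)).2 a :=
          Function.update_of_ne (Ne.symm (hT (T + k) (by omega))) _ _
        rw [← add_assoc, h4, ih]
    filter_upwards [eventually_ge_atTop T, hten.eventually (gt_mem_nhds (hpos T a))] with t ht h5 h6
    rw [h6] at h5
    have h7 := hc (t - T)
    have h8 : T + (t - T) = t := by omega
    rw [h8] at h7
    rw [h7] at h5
    exact lt_irrefl _ h5
  intro i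
  by_contra hcon
  push Not at hcon
  have hi : ∀ t, wn t ≠ i := by
    intro t h
    obtain ⟨h1, h2, h3⟩ := pth_spec s lam hn (t + 1)
    refine hcon (pth (s, lam) t) (outc (x t)) h1 ?_
    rw [(pth_spec s lam hn t).2.1]
    exact h
  classical
  -- the idle letters
  set Z : Finset (Fin (m + 1)) := Finset.univ.filter fun a => ∀ᶠ t in atTop, wn t ≠ a with hZ
  have hZi : i ∈ Z := Finset.mem_filter.2 ⟨Finset.mem_univ _, Eventually.of_forall hi⟩
  have hZw : ∀ᶠ t in atTop, ∀ a, a ∈ Z → wn t ≠ a := by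
    rw [eventually_all]
    intro a
    by_cases ha : a ∈ Z
    · filter_upwards [(Finset.mem_filter.1 ha).2] with t ht _
      exact ht
    · exact Eventually.of_forall fun t h => absurd h ha
  have hZl : ∀ᶠ t in atTop, ∀ a, a ∈ Z → ls t ≠ a := by
    rw [eventually_all]
    intro a
    by_cases ha : a ∈ Z
    · filter_upwards [hlose a (Finset.mem_filter.1 ha).2] with t ht _
      exact ht
    · exact Eventually.of_forall fun t h => absurd h ha
  obtain ⟨T₀, hT₀⟩ := eventually_atTop.1 (hZw.and hZl)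
  have hwz : ∀ t, T₀ ≤ t → wn t ∉ Z := fun t ht h => (hT₀ t ht).1 _ h rfl
  have hlz : ∀ t, T₀ ≤ t → ls t ∉ Z := fun t ht h => (hT₀ t ht).2 _ h rfl
  have hetz : ∀ t, T₀ ≤ t → et (x t).1 ∉ Z ∧ eb (x t).1 ∉ Z := by
    intro t ht
    have h1 := hwz t ht
    have h2 := hlz t ht
    rw [hwn] at h1
    rw [hls] at h2
    simp only [win, los] at h1 h2
    cases h : outc (x t)
    · rw [h] at h1 h2
      exact ⟨h2, h1⟩
    · rw [h] at h1 h2
      exact ⟨h1, h2⟩
  have hfr : ∀ w, w ∉ Z → ∃ᶠ t in atTop, wn t = w := by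
    intro w hw
    by_contra h
    rw [not_frequently] at h
    exact hw (Finset.mem_filter.2 ⟨Finset.mem_univ _, h⟩)
  have hT : ∀ t, T₀ ≤ t → ∀ z ∈ Z, (x t).1.1 z ≠ Fin.last m := by
    intro t ht z hz h
    apply (hetz t ht).1
    rw [et, ← h, Equiv.symm_apply_apply]
    exact hz
  have hB : ∀ t, T₀ ≤ t → ∀ z ∈ Z, (x t).1.2 z ≠ Fin.last m := by
    intro t ht z hz h
    apply (hetz t ht).2
    rw [eb, ← h, Equiv.symm_apply_apply]
    exact hz
  have het : ∀ t, (x t).1.1 (et (x t).1) = Fin.last m := fun t => Equiv.apply_symm_apply _ _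
  have heb : ∀ t, (x t).1.2 (eb (x t).1) = Fin.last m := fun t => Equiv.apply_symm_apply _ _
  have hetb1 : ∀ t, (x t).1.1 (eb (x t).1) ≠ Fin.last m := by
    intro t h
    apply hetb t
    rw [et, ← h, Equiv.symm_apply_apply]
  have hetb2 : ∀ t, (x t).1.2 (et (x t).1) ≠ Fin.last m := by
    intro t h
    apply hetb t
    have : eb (x t).1 = (x t).1.2.symm (Fin.last m) := rfl
    rw [this, ← h, Equiv.symm_apply_apply]
  have htop : ∀ t, ((x (t + 1)).1.1 = (x t).1.1 ∧ (x t).1.1 (wn t) = Fin.last m) ∨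
      ((x (t + 1)).1.1 = ins (x t).1.1 (wn t) ∧ (x t).1.1 (wn t) ≠ Fin.last m) := by
    intro t
    rw [hx1 t]
    cases h : outc (x t)
    · right
      have e : wn t = eb (x t).1 := by simp only [hwn, h]; rfl
      rw [e]
      refine ⟨?_, hetb1 t⟩
      simp only [stp, h]
      rfl
    · left
      have e : wn t = et (x t).1 := by simp only [hwn, h]; rfl
      rw [e]
      refine ⟨?_, het t⟩
      simp only [stp, h]
      rfl
  have hbot : ∀ t, ((x (t + 1)).1.2 = (x t).1.2 ∧ (x t).1.2 (wn t) = Fin.last m) ∨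
      ((x (t + 1)).1.2 = ins (x t).1.2 (wn t) ∧ (x t).1.2 (wn t) ≠ Fin.last m) := by
    intro t
    rw [hx1 t]
    cases h : outc (x t)
    · left
      have e : wn t = eb (x t).1 := by simp only [hwn, h]; rfl
      rw [e]
      refine ⟨?_, heb t⟩
      simp only [stp, h]
      rfl
    · right
      have e : wn t = et (x t).1 := by simp only [hwn, h]; rfl
      rw [e]
      refine ⟨?_, hetb2 t⟩
      simp only [stp, h]
      rfl
  have hfin : ∀ᶠ t in atTop, ∀ z, ∀ w, z ∈ Z → w ∉ Z →
      (x t).1.1 z < (x t).1.1 w ∧ (x t).1.2 z < (x t).1.2 w := by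
    rw [eventually_all]
    intro z
    rw [eventually_all]
    intro w
    by_cases hz : z ∈ Z
    · by_cases hw : w ∈ Z
      · exact Eventually.of_forall fun t _ h => absurd hw h
      · have h1 := row (fun t => (x t).1.1) wn z T₀ (fun t _ => htop t)
          (fun t ht h => hwz t ht (h ▸ hz)) (fun t ht => hT t ht z hz) w (hfr w hw)
        have h2 := row (fun t => (x t).1.2) wn z T₀ (fun t _ => hbot t)
          (fun t ht h => hwz t ht (h ▸ hz)) (fun t ht => hB t ht z hz) w (hfr w hw)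
        filter_upwards [h1, h2] with t h3 h4 _ _
        exact ⟨h3, h4⟩
    · exact Eventually.of_forall fun t h => absurd h hz
  obtain ⟨T, hTf, hTT⟩ := (hfin.and (eventually_ge_atTop T₀)).exists
  have hk0 : 0 < Z.card := Finset.card_pos.2 ⟨i, hZi⟩
  have hkm : Z.card ≤ m := by
    have h1 : Z.card < Fintype.card (Fin (m + 1)) := by
      rw [← Finset.card_univ]
      apply Finset.card_lt_card
      rw [Finset.ssubset_iff_of_subset (Finset.subset_univ Z)]
      exact ⟨wn T₀, Finset.mem_univ _, hwz T₀ le_rfl⟩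
    rw [Fintype.card_fin] at h1
    omega
  obtain ⟨j, hj1, hj2⟩ := hirrt T Z.card hk0 hkm
  by_cases hj : j ∈ Z
  · -- the bottom position is too large
    have h1 : Finset.univ.filter (fun a => (x T).1.2 a < (x T).1.2 j) ⊆ Z.erase j := by
      intro a ha
      have ha2 := (Finset.mem_filter.1 ha).2
      refine Finset.mem_erase.2 ⟨?_, ?_⟩
      · rintro rfl
        exact lt_irrefl _ ha2
      · by_contra haZ
        exact lt_asymm ha2 (hTf j a hj haZ).2
    have h2 := Finset.card_le_card h1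
    rw [card_lt_pos, Finset.card_erase_of_mem hj] at h2
    omega
  · have h1 : Z ⊆ Finset.univ.filter (fun a => (x T).1.1 a < (x T).1.1 j) := by
      intro a ha
      exact Finset.mem_filter.2 ⟨Finset.mem_univ _, (hTf a j ha hj).1⟩
    have h2 := Finset.card_le_card h1
    rw [card_lt_pos] at h2
    omega

end Pool.Agent.H803.IE
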