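import Mathlib
import Pool.Agent.H773.IE.SM

/-!
# Koopman representations (subtask IE-KOOP, helper828)
-/

set_option autoImplicit false

open MeasureTheory Set Filter Topology
open scoped ENNReal

namespace Pool.Agent.H828.IE

open Pool.Agent.H773.IE

instance fact_two_ne_top : Fact ((2 : ℝ≥0∞) ≠ ∞) := ⟨by norm_num⟩

/-- `L0` is closed -/
theorem t_L0 : S_L0 := by
  intro X _ m _
  have h : ((L0 m : Submodule ℝ (Lp ℝ 2 m)) : Set (Lp ℝ 2 m)) =
      {f | inner ℝ (indicatorConstLp 2 MeasurableSet.univ (measure_ne_top m univ) (1 : ℝ)) f =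
        (0 : ℝ)} := by
    ext f
    have h1 : (inner ℝ (indicatorConstLp 2 MeasurableSet.univ (measure_ne_top m univ) (1 : ℝ)) f
        : ℝ) = ∫ y, (f : X → ℝ) y ∂m := by
      rw [L2.inner_indicatorConstLp_one, Measure.restrict_univ]
    constructor
    · intro hf
      exact h1.trans hf
    · intro hf
      exact h1.symm.trans hf
  rw [h]
  exact isClosed_eq (continuous_const.inner continuous_id) continuous_const

section Koop

variable {G X : Type} [Group G] [MeasurableSpace X] [MulAction G X] [MeasurableConstSMul G X]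
  (m : Measure X) [SMulInvariantMeasure G X m]

/-- the Koopman operator -/
noncomputable def koopIso (g : G) : Lp ℝ 2 m →ₗᵢ[ℝ] Lp ℝ 2 m where
  toFun f := DomMulAct.mk g⁻¹ • f
  map_add' f h := smul_add _ f h
  map_smul' c f := smul_comm _ c f
  norm_map' f := DomMulAct.norm_smul_Lp _ f

/-- the Koopman representation -/
noncomputable def koop : G →* (Lp ℝ 2 m →L[ℝ] Lp ℝ 2 m) where
  toFun g := (koopIso m g).toContinuousLinearMap
  map_one' := by
    ext1 f
    show DomMulAct.mk (1 : G)⁻¹ • f = f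
    rw [inv_one, DomMulAct.mk_one, one_smul]
  map_mul' g h := by
    ext1 f
    show DomMulAct.mk (g * h)⁻¹ • f = DomMulAct.mk g⁻¹ • (DomMulAct.mk h⁻¹ • f)
    rw [mul_inv_rev, DomMulAct.mk_mul, mul_smul]

theorem koop_apply (g : G) (f : Lp ℝ 2 m) : koop m g f = DomMulAct.mk g⁻¹ • f := rfl

theorem koop_ae (g : G) (f : Lp ℝ 2 m) :
    ∀ᵐ y ∂m, (koop m g f : X → ℝ) y = (f : X → ℝ) (g⁻¹ • y) := by
  rw [koop_apply]
  exact DomMulAct.smul_Lp_ae_eq (DomMulAct.mk g⁻¹) f

end Koop

theorem t_koop : S_koop := by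
  intro G X _ _ _ _ _ _ _ _ _ _ _ _ _ m _ _
  have : T3Space X := inferInstance
  have : TopologicalSpace.MetrizableSpace X :=
    TopologicalSpace.metrizableSpace_of_t3_secondCountable X
  have : m.Regular := inferInstance
  refine ⟨koop m, ⟨?_, ?_⟩, ?_⟩
  · intro g v
    exact (koopIso m g).norm_map v
  · intro v
    have h : Continuous fun g : G => DomMulAct.mk g⁻¹ := by
      exact DomMulAct.continuous_mk.comp continuous_inv
    exact h.smul continuous_const
  · intro g f
    exact koop_ae m g f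

/-- integrals are invariant -/
theorem integral_koop {G X : Type} [Group G] [MeasurableSpace X] [MulAction G X]
    [MeasurableConstSMul G X] (m : Measure X) [SMulInvariantMeasure G X m] (g : G)
    (f f' : X → ℝ) (h : ∀ᵐ y ∂m, f' y = f (g⁻¹ • y)) : ∫ y, f' y ∂m = ∫ y, f y ∂m := by
  rw [integral_congr_ae h]
  exact integral_smul_eq_self f

theorem t_koop0 (_hL0 : S_L0) (hinv : S_inv) (hkoop : S_koop) : S_koop0 := by
  intro G X _ _ _ _ _ _ _ μ _ _ _ _ _ _ _ _ _ _ _ m _ _
  obtain ⟨U, hU, hae⟩ := hkoop G X m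
  have hmem : ∀ (g : G) (f : L0 m), U g (f : Lp ℝ 2 m) ∈ L0 m := by
    intro g f
    show ∫ y, (U g (f : Lp ℝ 2 m) : X → ℝ) y ∂m = 0
    rw [integral_koop m g _ _ (hae g f)]
    exact f.2
  let U0 : G →* (L0 m →L[ℝ] L0 m) :=
    { toFun := fun g => ((U g).comp (L0 m).subtypeL).codRestrict (L0 m) (hmem g)
      map_one' := by
        ext1 f
        apply Subtype.ext
        show U 1 (f : Lp ℝ 2 m) = f
        rw [map_one]
        rfl
      map_mul' := by
        intro g h
        ext1 f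
        apply Subtype.ext
        show U (g * h) (f : Lp ℝ 2 m) = U g (U h (f : Lp ℝ 2 m))
        rw [map_mul]
        rfl }
  have hU0 : ∀ (g : G) (f : L0 m), ((U0 g f : L0 m) : Lp ℝ 2 m) = U g (f : Lp ℝ 2 m) :=
    fun g f => rfl
  refine ⟨U0, ⟨?_, ?_⟩, ?_, ?_⟩
  · intro g v
    exact hU.iso g (v : Lp ℝ 2 m)
  · intro v
    exact (hU.cont (v : Lp ℝ 2 m)).subtype_mk _
  · intro v hv
    have hmeas : Measurable ((v : Lp ℝ 2 m) : X → ℝ) :=
      (Lp.stronglyMeasurable (v : Lp ℝ 2 m)).measurable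
    have hinvt : ∀ g : G, ∀ᵐ y ∂m, ((v : Lp ℝ 2 m) : X → ℝ) (g • y) =
        ((v : Lp ℝ 2 m) : X → ℝ) y := by
      intro g
      have h1 := hae g⁻¹ (v : Lp ℝ 2 m)
      rw [← hU0, hv] at h1
      filter_upwards [h1] with y hy
      rw [inv_inv] at hy
      exact hy.symm
    obtain ⟨c, hc⟩ := hinv G X μ m _ hmeas hinvt
    have hint : ∫ y, ((v : Lp ℝ 2 m) : X → ℝ) y ∂m = 0 := v.2
    have hc0 : c = 0 := by
      rw [integral_congr_ae hc] at hint
      simpa using hint
    apply Subtype.ext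
    show (v : Lp ℝ 2 m) = 0
    rw [Lp.eq_zero_iff_ae_eq_zero]
    filter_upwards [hc] with y hy
    rw [hy, hc0]
    rfl
  · intro g f
    exact hae g f

end Pool.Agent.H828.IE
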