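import Mathlib
import Pool.Agent.H773.IE.SR

/-!
# The law of one step of Rauzy induction for exponential lengths
-/

set_option autoImplicit false

open MeasureTheory Set Filter Topology
open scoped ENNReal

namespace Pool.Agent.H196.IE

open Pool.Agent.H773.IE

/-! ### Products -/

theorem cons_symm (n : ℕ) (a : ℝ × (Fin n → ℝ)) :
    (MeasurableEquiv.piFinSuccAbove (fun _ : Fin (n + 1) => ℝ) 0).symm a = Fin.cons a.1 a.2 := by
  funext i
  simp [MeasurableEquiv.piFinSuccAbove, Fin.insertNthEquiv]

theorem cons_meas {n : ℕ} :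
    Measurable (fun a : ℝ × (Fin n → ℝ) => (Fin.cons a.1 a.2 : Fin (n + 1) → ℝ)) := by
  have h := (MeasurableEquiv.piFinSuccAbove (fun _ : Fin (n + 1) => ℝ) 0).symm.measurable
  have e : (fun a : ℝ × (Fin n → ℝ) => (Fin.cons a.1 a.2 : Fin (n + 1) → ℝ)) =
      (MeasurableEquiv.piFinSuccAbove (fun _ : Fin (n + 1) => ℝ) 0).symm := by
    funext a; exact (cons_symm n a).symm
  rw [e]; exact h

/-- splitting off the first coordinate -/
theorem lint_cons {μ : Measure ℝ} [SigmaFinite μ] (n : ℕ) {F : (Fin (n + 1) → ℝ) → ℝ≥0∞}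
    (hF : Measurable F) : ∫⁻ x : Fin (n + 1) → ℝ, F x ∂(Measure.pi fun _ => μ) =
      ∫⁻ a, ∫⁻ y : Fin n → ℝ, F (Fin.cons a y) ∂(Measure.pi fun _ => μ) ∂μ := by
  rw [← (measurePreserving_piFinSuccAbove (fun _ : Fin (n + 1) => μ) 0).symm.lintegral_comp_emb
    (MeasurableEquiv.measurableEmbedding _)]
  simp_rw [cons_symm]
  exact lintegral_prod (fun a : ℝ × (Fin n → ℝ) => F (Fin.cons a.1 a.2))
    (hF.comp cons_meas).aemeasurable

theorem lint_prod {μ : Measure ℝ} [SigmaFinite μ] : ∀ (n : ℕ) (f : Fin n → ℝ → ℝ≥0∞),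
    (∀ i, Measurable (f i)) →
    ∫⁻ x : Fin n → ℝ, ∏ i, f i (x i) ∂(Measure.pi fun _ => μ) = ∏ i, ∫⁻ z, f i z ∂μ
  | 0, f, _ => by simp
  | n + 1, f, hf => by
      have hm : Measurable (fun x : Fin (n + 1) → ℝ => ∏ i, f i (x i)) :=
        Finset.measurable_prod _ fun i _ => (hf i).comp (measurable_pi_apply i)
      have hm' : Measurable (fun x : Fin n → ℝ => ∏ i : Fin n, f i.succ (x i)) :=
        Finset.measurable_prod _ fun i _ => (hf i.succ).comp (measurable_pi_apply i)
      rw [lint_cons n hm, Fin.prod_univ_succ, ← lint_prod n (fun i => f i.succ) fun i => hf i.succ,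
        ← lintegral_mul_const _ (hf 0)]
      refine lintegral_congr fun a => ?_
      simp_rw [Fin.prod_univ_succ, Fin.cons_zero, Fin.cons_succ]
      rw [lintegral_const_mul _ hm']

/-! ### Densities -/

/-- the exponential density -/
noncomputable def de (r x : ℝ) : ℝ≥0∞ := ENNReal.ofReal (if 0 < x then r * Real.exp (-(r * x)) else 0)

theorem de_meas (r : ℝ) : Measurable (de r) := by
  unfold de
  refine Measurable.ennreal_ofReal (Measurable.ite measurableSet_Ioi ?_ measurable_const)
  fun_prop

/-- the product density -/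
noncomputable def dE {n : ℕ} (q : Fin n → ℝ) (x : Fin n → ℝ) : ℝ≥0∞ := ∏ i, de (q i) (x i)

theorem dE_meas {n : ℕ} (q : Fin n → ℝ) : Measurable (dE q) :=
  Finset.measurable_prod _ fun i _ => (de_meas (q i)).comp (measurable_pi_apply i)

theorem EE_eq {n : ℕ} (q : Fin n → ℝ) (hq : ∀ i, IsProbabilityMeasure (ex (q i))) :
    EE q = (volume : Measure (Fin n → ℝ)).withDensity (dE q) := by
  have := hq
  unfold EE
  refine Measure.pi_eq fun A hA => ?_
  rw [withDensity_apply _ (MeasurableSet.univ_pi hA), ← lintegral_indicator (MeasurableSet.univ_pi hA)]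
  have e : (fun x : Fin n → ℝ => (univ.pi A).indicator (dE q) x) = fun x =>
      ∏ i, (A i).indicator (de (q i)) (x i) := by
    funext x
    by_cases hx : x ∈ univ.pi A
    · rw [indicator_of_mem hx, dE]
      exact Finset.prod_congr rfl fun i _ => by rw [indicator_of_mem (hx i (mem_univ i))]
    · rw [indicator_of_notMem hx]
      rw [Set.mem_univ_pi, not_forall] at hx
      obtain ⟨i, hi⟩ := hx
      exact (Finset.prod_eq_zero (Finset.mem_univ i) (by rw [indicator_of_notMem hi])).symm
  rw [e, volume_pi, lint_prod n _ fun i => (de_meas (q i)).indicator (hA i)]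
  refine Finset.prod_congr rfl fun i _ => ?_
  rw [lintegral_indicator (hA i), ex, withDensity_apply _ (hA i)]
  rfl

/-! ### The shear -/

/-- adding the loser to the winner -/
def sh {n : ℕ} (r w : Fin n) (x : Fin n → ℝ) : Fin n → ℝ := Function.update x w (x w + x r)

theorem sh_mp {n : ℕ} {r w : Fin n} (h : r ≠ w) :
    MeasurePreserving (sh r w) (volume : Measure (Fin n → ℝ)) volume := by
  have e : sh r w = Matrix.toLin' (Matrix.TransvectionStruct.mk w r h.symm (1 : ℝ)).toMatrix := by
    funext x
    funext i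
    simp only [sh, Matrix.TransvectionStruct.toMatrix, Matrix.toLin'_apply, Matrix.transvection,
      Matrix.add_mulVec, Matrix.one_mulVec, Matrix.single_mulVec, Pi.add_apply, one_mul]
    by_cases hi : i = w
    · subst hi; simp
    · rw [Function.update_of_ne hi, Function.update_of_ne hi]; simp
  rw [e]
  exact Real.volume_preserving_transvectionStruct _

/-- the inverse shear -/
def sh' {n : ℕ} (r w : Fin n) (x : Fin n → ℝ) : Fin n → ℝ := Function.update x w (x w - x r)

theorem sh'_sh {n : ℕ} {r w : Fin n} (h : r ≠ w) (x : Fin n → ℝ) : sh' r w (sh r w x) = x := by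
  funext i
  by_cases hi : i = w
  · subst hi; simp [sh, sh', Function.update_of_ne h]
  · simp [sh, sh', hi]

theorem sh'_meas {n : ℕ} (r w : Fin n) : Measurable (sh' r w) := by
  unfold sh'
  refine measurable_pi_iff.2 fun i => ?_
  by_cases hi : i = w
  · subst hi
    simp only [Function.update_self]
    fun_prop
  · simp only [Function.update_of_ne hi]
    fun_prop

/-- the pointwise identity of the densities -/
theorem den {a b x y : ℝ} (ha : 0 < a) (hb : 0 < b) :
    (if x < y + x then de b (y + x) * de a x else 0) =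
      ENNReal.ofReal (a / (a + b)) * (de b y * de (a + b) x) := by
  unfold de
  by_cases hy : 0 < y
  · rw [if_pos (by linarith)]
    by_cases hx : 0 < x
    · rw [if_pos (by linarith), if_pos hx, if_pos hy, if_pos hx, ← ENNReal.ofReal_mul (by positivity),
        ← ENNReal.ofReal_mul (by positivity), ← ENNReal.ofReal_mul (by positivity)]
      congr 1
      have e1 : Real.exp (-(b * (y + x))) = Real.exp (-(b * y)) * Real.exp (-(b * x)) := by
        rw [← Real.exp_add]; congr 1; ring
      have e2 : Real.exp (-((a + b) * x)) = Real.exp (-(a * x)) * Real.exp (-(b * x)) := by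
        rw [← Real.exp_add]; congr 1; ring
      rw [e1, e2]
      field_simp
    · rw [if_neg hx, if_neg hx]; simp
  · rw [if_neg (by linarith), if_neg hy]; simp

theorem dE_id {n : ℕ} {r w : Fin n} (h : r ≠ w) (q : Fin n → ℝ) (hq : ∀ i, 0 < q i) (x : Fin n → ℝ) :
    (if x r < x w + x r then dE q (sh r w x) else 0) =
      ENNReal.ofReal (q r / (q r + q w)) * dE (Function.update q r (q r + q w)) x := by
  have key : ∀ (g : Fin n → ℝ≥0∞), ∏ i, g i = (g w * g r) * ∏ i ∈ (Finset.univ.erase w).erase r, g i := by
    intro g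
    rw [← Finset.mul_prod_erase Finset.univ g (Finset.mem_univ w),
      ← Finset.mul_prod_erase (Finset.univ.erase w) g (Finset.mem_erase.2 ⟨h, Finset.mem_univ r⟩),
      mul_assoc]
  unfold dE
  rw [key (fun i => de (q i) (sh r w x i)),
    key (fun i => de (Function.update q r (q r + q w) i) (x i))]
  have e1 : ∏ i ∈ (Finset.univ.erase w).erase r, de (q i) (sh r w x i) =
      ∏ i ∈ (Finset.univ.erase w).erase r, de (q i) (x i) := by
    refine Finset.prod_congr rfl fun i hi => ?_
    have hw : i ≠ w := (Finset.mem_erase.1 (Finset.mem_erase.1 hi).2).1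
    rw [sh, Function.update_of_ne hw]
  have e2 : ∏ i ∈ (Finset.univ.erase w).erase r, de (Function.update q r (q r + q w) i) (x i) =
      ∏ i ∈ (Finset.univ.erase w).erase r, de (q i) (x i) := by
    refine Finset.prod_congr rfl fun i hi => ?_
    have hw : i ≠ r := (Finset.mem_erase.1 hi).1
    rw [Function.update_of_ne hw]
  rw [e1, e2]
  simp only [sh, Function.update_self, Function.update_of_ne h, Function.update_of_ne h.symm]
  rw [← mul_assoc, ← den (hq r) (hq w), ite_mul, zero_mul]

theorem t_law (hex : S_ex) : S_law := by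
  intro n r w h q hq A hA
  have hq' : ∀ i, 0 < Function.update q r (q r + q w) i := by
    intro i
    by_cases hi : i = r
    · subst hi
      rw [Function.update_self]
      exact add_pos (hq _) (hq _)
    · rw [Function.update_of_ne hi]; exact hq i
  rw [EE_eq q (hex n q hq).1, EE_eq _ (hex n _ hq').1]
  have hS : MeasurableSet {lam : Fin n → ℝ | lam r < lam w ∧
      Function.update lam w (lam w - lam r) ∈ A} := by
    refine MeasurableSet.inter ?_ ((sh'_meas r w) hA)
    exact measurableSet_lt (measurable_pi_apply r) (measurable_pi_apply w)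
  rw [withDensity_apply _ hS, withDensity_apply _ hA, ← lintegral_indicator hS,
    ← (sh_mp h).lintegral_comp ((dE_meas q).indicator hS), ← lintegral_const_mul _ (dE_meas _),
    ← lintegral_indicator hA]
  refine lintegral_congr fun x => ?_
  have hr : sh r w x r = x r := by rw [sh, Function.update_of_ne h]
  have hw : sh r w x w = x w + x r := by rw [sh, Function.update_self]
  have hA' : Function.update (sh r w x) w (sh r w x w - sh r w x r) = x := sh'_sh h x
  by_cases hx : x ∈ A
  · rw [indicator_of_mem hx, ← dE_id h q hq x]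
    by_cases hlt : x r < x w + x r
    · rw [indicator_of_mem, if_pos hlt]
      refine ⟨?_, ?_⟩
      · rw [hr, hw]; exact hlt
      · rw [hA']; exact hx
    · rw [indicator_of_notMem, if_neg hlt]
      rintro ⟨h1, -⟩
      rw [hr, hw] at h1
      exact hlt h1
  · rw [indicator_of_notMem hx, indicator_of_notMem]
    rintro ⟨-, h2⟩
    rw [hA'] at h2
    exact hx h2

end Pool.Agent.H196.IE

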