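import Pool.Agent.H773.IE.SH

set_option autoImplicit false

open MeasureTheory Set Filter Topology
open scoped ENNReal NNReal

namespace Pool.Agent.H127.IE

open Pool.Agent.H773.IE Matrix.SpecialLinearGroup

section alg

variable {d : ℕ} {i j : Fin d}

theorem single_neg' (i j : Fin d) (c : ℝ) : Matrix.single i j (-c) = - Matrix.single i j c := by
  ext x y
  simp only [Matrix.single_apply, Matrix.neg_apply]
  split_ifs <;> simp

/-- the Weyl element as a product of transvections -/
theorem w_eq (hij : i ≠ j) (a : ℝ) (ha : a ≠ 0) :
    (transvection hij a * transvection hij.symm (-a⁻¹) * transvection hij a : SLR d).1 =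
      1 - Matrix.single i i 1 - Matrix.single j j 1 + Matrix.single i j a - Matrix.single j i a⁻¹ := by
  simp only [coe_mul, transvection_coe, mul_add, add_mul, mul_one, one_mul,
    Matrix.single_mul_single_same,
    Matrix.single_mul_single_of_ne _ _ _ _ hij.symm, add_zero, mul_neg, neg_mul]
  rw [mul_inv_cancel₀ ha, inv_mul_cancel₀ ha]
  simp only [single_neg', one_mul]
  abel

/-- the diagonal matrices as products of transvections -/
theorem diag2n_eq (hij : i ≠ j) (a : ℝ) (ha : a ≠ 0) :
    (diag2n hij a ha : SLR d) =
      transvection hij a * transvection hij.symm (-a⁻¹) * transvection hij a *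
      (transvection hij (-1) * transvection hij.symm (-(-1)⁻¹) * transvection hij (-1)) := by
  refine Subtype.ext ?_
  rw [coe_mul, w_eq hij a ha, w_eq hij (-1) (by norm_num), diag2n_coe]
  simp only [mul_add, add_mul, mul_sub, sub_mul, mul_one, one_mul,
    Matrix.single_mul_single_same, Matrix.single_mul_single_of_ne _ _ _ _ hij,
    Matrix.single_mul_single_of_ne _ _ _ _ hij.symm]
  ext x y
  simp only [Matrix.diagonal_apply, Matrix.sub_apply, Matrix.add_apply, Matrix.single_apply,
    Matrix.one_apply, Matrix.zero_apply]
  by_cases hxy : x = y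
  · subst hxy
    by_cases hxi : x = i
    · subst hxi
      simp [hij.symm]
    · by_cases hxj : x = j
      · subst hxj
        simp [hij, hij.symm]
      · simp [hxi, hxj, Ne.symm hxi, Ne.symm hxj]
  · by_cases h1 : i = x <;> by_cases h2 : j = y <;> by_cases h3 : i = y <;> by_cases h4 : j = x <;>
      simp [hxy, h1, h2, h3, h4] <;> simp_all

/-- conjugation of a transvection by a diagonal matrix -/
theorem conj_eq (hij : i ≠ j) (b : ℝ) :
    (diag2n hij 2 two_ne_zero * transvection hij b : SLR d) =
      transvection hij (4 * b) * diag2n hij 2 two_ne_zero := by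
  refine Subtype.ext ?_
  rw [coe_mul, coe_mul, diag2n_coe, transvection_coe, transvection_coe]
  ext x y
  rw [mul_add, add_mul, mul_one, one_mul, Matrix.add_apply, Matrix.add_apply]
  congr 1
  rw [Matrix.diagonal_mul, Matrix.mul_diagonal]
  simp only [Matrix.single_apply]
  by_cases h1 : i = x
  · by_cases h2 : j = y
    · subst h1 h2
      simp [hij.symm]
      ring
    · simp [h2]
  · simp [h1]

/-- positive characters are trivial -/
theorem char_trivial (hd : 2 ≤ d) (χ : SLR d →* ℝ≥0) (hpos : ∀ g, 0 < χ g) (g : SLR d) :
    χ g = 1 := by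
  have htr : ∀ (i j : Fin d) (hij : i ≠ j) (b : ℝ), χ (transvection hij b) = 1 := by
    intro i j hij b
    have h1 := congrArg χ (conj_eq hij b)
    rw [map_mul, map_mul, mul_comm] at h1
    have h2 : χ (transvection hij b) = χ (transvection hij (4 * b)) :=
      mul_right_cancel₀ (hpos _).ne' h1
    have h3 : (4 * b) = b + b + b + b := by ring
    rw [h3, transvection_add, transvection_add, transvection_add, map_mul, map_mul, map_mul] at h2
    set c := χ (transvection hij b) with hc
    have hcpos : 0 < c := hpos _
    have h4 : c * 1 = c * c ^ 3 := by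
      rw [mul_one]
      conv_lhs => rw [h2]
      ring
    have h5 : c ^ 3 = 1 := (mul_left_cancel₀ hcpos.ne' h4).symm
    exact (pow_eq_one_iff_of_nonneg zero_le (by norm_num)).1 h5
  have : Nontrivial (Fin d) := Fin.nontrivial_iff_two_le.2 hd
  refine diagonal_transvection_induction' (fun g => χ g = 1) g ?_ htr ?_
  · intro i j hij c hc
    rw [diag2n_eq hij c hc]
    simp only [map_mul, htr, mul_one]
  · intro A B hA hB
    rw [map_mul, hA, hB, mul_one]

end alg

theorem t_uni (htop : S_top) : S_uni := by
  intro d hd _ _ μ _
  obtain ⟨h1, h2, h3⟩ := htop d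
  refine ⟨fun g => ?_⟩
  have e1 : (Measure.modularCharacterFun g : ℝ≥0) = 1 :=
    char_trivial hd (Measure.modularCharacter (G := SLR d))
      (fun g => Measure.modularCharacterFun_pos g) g
  rw [Measure.modularCharacterFun_eq_haarScalarFactor μ g] at e1
  rw [Measure.isMulLeftInvariant_eq_smul (Measure.map (· * g) μ) μ, e1, one_smul]

end Pool.Agent.H127.IE
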