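import Pool.Agent.H773.IE.SM

/-!
# IE-QUO: topology of `SL(d,ℝ)/SL(d,ℤ)`
-/

set_option autoImplicit false

open Set Filter Topology

namespace Pool.Agent.H784.IE

open Pool.Agent.H773.IE

namespace QuoAux

theorem top_SLR (d : ℕ) : LocallyCompactSpace (SLR d) ∧ SecondCountableTopology (SLR d) := by
  have he : IsClosedEmbedding (Subtype.val : SLR d → Matrix (Fin d) (Fin d) ℝ) :=
    Matrix.SpecialLinearGroup.isClosedEmbedding_val
  have hl : LocallyCompactSpace (Matrix (Fin d) (Fin d) ℝ) :=
    inferInstanceAs (LocallyCompactSpace (Fin d → Fin d → ℝ))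
  have hsc : SecondCountableTopology (Matrix (Fin d) (Fin d) ℝ) :=
    inferInstanceAs (SecondCountableTopology (Fin d → Fin d → ℝ))
  exact ⟨he.locallyCompactSpace, he.isEmbedding.secondCountableTopology⟩

theorem closed_SLZ (d : ℕ) : IsClosed (SLZ d : Set (SLR d)) := by
  have h : IsClosedEmbedding (Matrix.SpecialLinearGroup.map (n := Fin d) (Int.castRingHom ℝ)) :=
    Topology.IsClosedEmbedding.specialLinearGroup_map (f := Int.castRingHom ℝ) Real.isClosedEmbedding_intCast
  have h2 := h.isClosed_range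
  have h3 : (SLZ d : Set (SLR d)) = range (Matrix.SpecialLinearGroup.map (n := Fin d) (Int.castRingHom ℝ)) := by
    rw [SLZ, MonoidHom.coe_range]
  rw [h3]
  exact h2

end QuoAux

open QuoAux in
theorem t_quot : S_quot := by
  intro d
  obtain ⟨h1, h2⟩ := top_SLR d
  refine ⟨?_, inferInstance, inferInstance, inferInstance⟩
  rw [t2Space_iff_of_isOpenQuotientMap (QuotientGroup.isOpenQuotientMap_mk (N := SLZ d))]
  have h3 : {q : SLR d × SLR d | (QuotientGroup.mk q.1 : SLR d ⧸ SLZ d) = QuotientGroup.mk q.2} =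
      (fun q : SLR d × SLR d => q.1⁻¹ * q.2) ⁻¹' (SLZ d : Set (SLR d)) := by
    ext q
    rw [mem_ofPred_eq, QuotientGroup.eq]
    rfl
  rw [h3]
  exact (closed_SLZ d).preimage (by fun_prop)

end Pool.Agent.H784.IE
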